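import Pool.Agent.Lib.MP_e22585_pr.Unb

namespace Pool.Agent.Results.MP_e22585_pr.BothReadings

open MeasureTheory ProbabilityTheory Filter Set Pool.Agent.Lib.MP_e22585_pr
open scoped ENNReal Topology

/-- The moments of the centered Gaussian multiplicative chaos, under both readings of the weight.
First part: the identity holds for every bounded measurable positive weight. Second part: for
`r(t) = |t|` the fields and the chaos exist, and for `q < -1` the identity fails for some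
integrable positive weight. -/
theorem result (μ : ℝ) (hμ : 0 < μ ∧ μ < 2) (q : ℝ) (hq : -1 / μ - 1 / 2 < q ∧ q < 2 / μ) :
    (∀ {Ω Ω' : Type*} [MeasurableSpace Ω] [MeasurableSpace Ω'] (P : Measure Ω) (P' : Measure Ω')
      [IsProbabilityMeasure P] [IsProbabilityMeasure P'] (circle : Bool) (r : ℝ → ℝ) (δ : ℝ → ℝ)
      (X : ℝ → ℝ → Ω → ℝ) (M : Ω' → Measure ℝ) (φ : ℝ → ℝ), Admissible circle r →
      Tendsto δ (𝓝[>] 0) (𝓝 0) →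
      (∀ᶠ ε in 𝓝[>] (0 : ℝ), IsCutoffField circle μ r P ε (δ ε) (X ε)) → IsChaos P P' X M →
      Measurable φ → (∀ u ∈ Ioo (0 : ℝ) 1, 0 < φ u) → BddAbove (φ '' Ioo 0 1) →
      (∀ᵐ ω ∂P', ∫⁻ u in Ioo 0 1, ENNReal.ofReal (r u ^ (μ * q) * φ u) ∂M ω ∈ Ioo 0 ∞) ∧
      ∫⁻ ω, (∫⁻ u in Ioo 0 1, ENNReal.ofReal (r u ^ (μ * q) * φ u) ∂M ω) ^ q ∂P' < ∞ ∧
      Tendsto (fun ε => ENNReal.ofReal (Real.exp (μ * (Real.log (r ε) - 1) * (q * (q + 1) / 2))) *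
        ∫⁻ ω, (∫⁻ u in Ioo 0 1, ENNReal.ofReal (φ u * Real.exp (X ε u ω - X ε 0 ω))) ^ q ∂P)
        (𝓝[>] 0)
        (𝓝 (∫⁻ ω, (∫⁻ u in Ioo 0 1, ENNReal.ofReal (r u ^ (μ * q) * φ u) ∂M ω) ^ q ∂P'))) ∧
    ∃ (Ω : Type) (_ : MeasurableSpace Ω) (P : Measure Ω) (_ : IsProbabilityMeasure P)
      (X : ℝ → ℝ → Ω → ℝ) (M : Ω → Measure ℝ), Admissible false (fun t => |t|) ∧
      (∀ ε ∈ Ioc (0 : ℝ) 1, IsCutoffField false μ (fun t => |t|) P ε 0 (X ε)) ∧ IsChaos P P X M ∧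
      (q < -1 → ∃ φ : ℝ → ℝ, Measurable φ ∧ (∀ u, 1 ≤ φ u) ∧ IntegrableOn φ (Ioo 0 1) ∧
        TendstoInDistribution
          (fun ε ω => ∫⁻ u in Ioo (0 : ℝ) 1, ENNReal.ofReal (φ u * Real.exp (X ε u ω))) (𝓝[>] 0)
          (fun ω => ∫⁻ u, ENNReal.ofReal (φ u) ∂M ω) (fun _ => P) P ∧
        (∀ᵐ ω ∂P, ∫⁻ u in Ioo 0 1, ENNReal.ofReal (|u| ^ (μ * q) * φ u) ∂M ω ∈ Ioo 0 ∞) ∧
        ∫⁻ ω, (∫⁻ u in Ioo 0 1, ENNReal.ofReal (|u| ^ (μ * q) * φ u) ∂M ω) ^ q ∂P ∈ Ioo 0 ∞ ∧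
        Tendsto (fun ε => ENNReal.ofReal (Real.exp (μ * (Real.log |ε| - 1) * (q * (q + 1) / 2))) *
          ∫⁻ ω, (∫⁻ u in Ioo 0 1, ENNReal.ofReal (φ u * Real.exp (X ε u ω - X ε 0 ω))) ^ q ∂P)
          (𝓝[>] 0) (𝓝 0)) := by
  refine ⟨fun P P' _ _ _ _ _ _ _ _ hr hδ hX hM hφ hφ0 hφ1 =>
    centered hμ hr hδ hX hM hφ hφ0 hφ1 hq, ?_⟩
  obtain ⟨X, M, hX, hM, hm⟩ := exists_field hμ.1.le
  have hX' : ∀ᶠ ε in 𝓝[>] (0 : ℝ), IsCutoffField false μ (fun t => |t|) gs ε 0 (X ε) :=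
    ev_small.mono hX
  refine ⟨_, inferInstance, gs, inferInstance, X, M, admissible_abs, hX, hM, fun h => ?_⟩
  obtain ⟨φ, h1, h2, h3, h4⟩ := unbounded hμ ⟨hq.1, h⟩
  exact ⟨φ, h1, h2, h3, weight_conv hX' hM hm h1 h3, h4 gs gs X M hX' hM⟩

end Pool.Agent.Results.MP_e22585_pr.BothReadings
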