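import Pool.Agent.Lib.MP_e22585_pr.Kernel

namespace Pool.Agent.Results.MP_e22585_pr.CenteredMoments

open MeasureTheory Filter Set Pool.Agent.Lib.MP_e22585_pr
open scoped ENNReal Topology

/-- The moments of the centered Gaussian multiplicative chaos. `X ε` is the field `ω_{μ,ε}`, up
to a constant `δ ε → 0` added to its covariance, and `M` is the chaos measure `M_μ`. For every
real `q` with `-1/μ - 1/2 < q < 2/μ` the random variable `∫ r^{μ q} φ dM` is almost surely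
positive and finite, its `q`-th moment is finite, and it is the limit of the renormalized `q`-th
moments of the centered field. -/
theorem result {Ω Ω' : Type*} [MeasurableSpace Ω] [MeasurableSpace Ω'] (P : Measure Ω)
    (P' : Measure Ω') [IsProbabilityMeasure P] [IsProbabilityMeasure P'] (circle : Bool) (μ : ℝ)
    (hμ : 0 < μ ∧ μ < 2) (r : ℝ → ℝ) (hr : Admissible circle r) (δ : ℝ → ℝ)
    (hδ : Tendsto δ (𝓝[>] 0) (𝓝 0)) (X : ℝ → ℝ → Ω → ℝ)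
    (hX : ∀ᶠ ε in 𝓝[>] (0 : ℝ), IsCutoffField circle μ r P ε (δ ε) (X ε)) (M : Ω' → Measure ℝ)
    (hM : IsChaos P P' X M) (φ : ℝ → ℝ) (hφ : Measurable φ) (hφ0 : ∀ u ∈ Ioo (0 : ℝ) 1, 0 < φ u)
    (hφ1 : BddAbove (φ '' Ioo 0 1)) (q : ℝ) (hq : -1 / μ - 1 / 2 < q ∧ q < 2 / μ) :
    (∀ᵐ ω ∂P', ∫⁻ u in Ioo 0 1, ENNReal.ofReal (r u ^ (μ * q) * φ u) ∂M ω ∈ Ioo 0 ∞) ∧
    ∫⁻ ω, (∫⁻ u in Ioo 0 1, ENNReal.ofReal (r u ^ (μ * q) * φ u) ∂M ω) ^ q ∂P' < ∞ ∧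
    Tendsto (fun ε => ENNReal.ofReal (Real.exp (μ * (Real.log (r ε) - 1) * (q * (q + 1) / 2))) *
      ∫⁻ ω, (∫⁻ u in Ioo 0 1, ENNReal.ofReal (φ u * Real.exp (X ε u ω - X ε 0 ω))) ^ q ∂P)
      (𝓝[>] 0)
      (𝓝 (∫⁻ ω, (∫⁻ u in Ioo 0 1, ENNReal.ofReal (r u ^ (μ * q) * φ u) ∂M ω) ^ q ∂P')) :=
  centered hμ hr hδ hX hM hφ hφ0 hφ1 hq

end Pool.Agent.Results.MP_e22585_pr.CenteredMoments
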